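import Pool.Agent.H.MP_4388f3_co.D

set_option autoImplicit false

namespace Pool.Agent.Results.MP_4388f3_co.Yes

open Filter Topology

noncomputable def dens {A B : Type} (E : Set (A × B)) (P L : Type) [Membership P L] : ℝ :=
  (Nat.card {f : (A → P) × (B → L) // ∀ e ∈ E, f.1 e.1 ∈ f.2 e.2} : ℝ) /
    ((Nat.card P : ℝ) ^ Nat.card A * (Nat.card L : ℝ) ^ Nat.card B)

theorem result (P L : ℕ → Type) [∀ n, Membership (P n) (L n)] [∀ n, Fintype (P n)]
    [∀ n, Fintype (L n)] [∀ n, Configuration.ProjectivePlane (P n) (L n)]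
    (hm : Tendsto (fun n => Configuration.ProjectivePlane.order (P n) (L n)) atTop atTop)
    (A₁ B₁ A₂ B₂ : Type) [Fintype A₁] [Fintype B₁] [Fintype A₂] [Fintype B₂]
    (E₁ : Set (A₁ × B₁)) (E₂ : Set (A₂ × B₂)) (h₁ : E₁.Nonempty) (h₂ : E₂.Nonempty) :
    ∃ x : ℝ, Tendsto (fun n => (-Real.log (dens E₁ (P n) (L n))) /
      (-Real.log (dens E₂ (P n) (L n)))) atTop (𝓝 x) := by
  obtain ⟨a, -, ha⟩ := Pool.Agent.H.MP_4388f3_co.lim P L hm E₁ h₁
  obtain ⟨b, hb0, hb⟩ := Pool.Agent.H.MP_4388f3_co.lim P L hm E₂ h₂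
  refine ⟨a / b, (ha.div hb hb0).congr fun n => div_div_div_cancel_right₀ (Real.log_pos ?_).ne' _ _⟩
  exact_mod_cast Configuration.ProjectivePlane.one_lt_order (P n) (L n)

end Pool.Agent.Results.MP_4388f3_co.Yes
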